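import Mathlib
import Pool.Agent.Q8.ZA.Setting

/-!
Morphisms from a projective variety to an abelian variety; as `Q8/ZA/Setting.lean`, but the constancy of
the sums over the fibres of a finite morphism `c : W → ℙ^m` is a condition on the given `c`.
-/

set_option autoImplicit false

namespace Pool.Agent.Q79.ZB

open Pool.Agent.Q8.KS
open Pool.Agent.Q8.ZA (AbelianVariety)

variable {G : Type} [Group G]

/-- A morphism over `K` from a projective variety `W` to an abelian variety `A` whose image is not
contained in a translate of a proper abelian subvariety. -/
structure GeneratingMap (W : Variety G) (A : AbelianVariety G) where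
  /-- the map on points -/
  pt : W.Pt → A.Pt
  pt_smul : ∀ (g : G) (x : W.Pt), pt (g • x) = g • pt x
  /-- the pullback of the symmetric line bundle of class `D` -/
  pic : A.NS →ₗ[ℝ] W.Pic
  /-- the Néron-Tate height is a height for the symmetric line bundle -/
  height_pic : ∀ D : A.NS, W.IsHeight (pic D) (A.hat D ∘ pt)
  /-- pullbacks of nef classes are nef -/
  nef : ∀ D ∈ A.Nef, W.cls (pic D) ∈ W.Nef
  /-- a nef class which is numerically trivial on the image is trivial, as the image generates -/
  generates : ∀ D ∈ A.Nef, D ≠ 0 → W.cls (pic D) ≠ 0

/-- The sum of `j` over the fibres of the finite morphism `c : W → ℙ^m` is constant. This holds for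
every morphism `j : W → A` and every finite morphism `c`, since the sum is a morphism from `ℙ^m` to
`A`. -/
def ConstantSums {W : Variety G} {A : AbelianVariety G} (j : GeneratingMap W A) (c : Cover W) :
    Prop :=
  ∃ s₀ : A.Pt, ∀ t : c.P, ∑ y ∈ c.fib t, c.mult y • j.pt y = s₀

end Pool.Agent.Q79.ZB
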